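import Pool.Agent.P.MP_892330_gt.All.DimN

/-! A decomposable minimal set contains continuum many disjoint arms. -/

namespace Pool.Agent.P.MP_892330_gt.All

open Set Topology

variable {X : Type*} [TopologicalSpace X]

/-- A skew map of corank at most one. -/
def skew {d : ℕ} (v : Fin d → ℝ) : Fin d → ℝ :=
  fun i => (((i : ℕ) : ℝ) - ((i.rev : ℕ) : ℝ)) * v i.rev

theorem skew_dot {d : ℕ} (v : Fin d → ℝ) : skew v ⬝ᵥ v = 0 := by
  have h : ∑ i : Fin d, skew v i * v i = ∑ i : Fin d, -(skew v i * v i) := by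
    rw [← Equiv.sum_comp Fin.revPerm]
    refine Finset.sum_congr rfl fun i _ => ?_
    simp only [skew, Fin.revPerm_apply, Fin.rev_rev]
    ring
  rw [Finset.sum_neg_distrib] at h
  simp only [dotProduct]
  linarith

theorem skew_eq_zero {d : ℕ} {v : Fin d → ℝ} (h : skew v = 0) (i : Fin d) (hi : i ≠ i.rev) :
    v i = 0 := by
  have := congrFun h i.rev
  simp only [skew, Fin.rev_rev, Pi.zero_apply, mul_eq_zero] at this
  refine this.resolve_left fun h => hi (Fin.ext ?_)
  exact_mod_cast (sub_eq_zero.mp h).symm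

theorem continuous_skew {d : ℕ} : Continuous (skew : (Fin d → ℝ) → Fin d → ℝ) := by
  unfold skew
  fun_prop

theorem dot_pos {d : ℕ} {v : Fin d → ℝ} (h : v ≠ 0) : 0 < v ⬝ᵥ v :=
  lt_of_le_of_ne (Finset.sum_nonneg fun i _ => mul_self_nonneg (v i))
    fun e => h (dotProduct_self_eq_zero.mp e.symm)

theorem twist_neg {d : ℕ} {u v : Fin d → ℝ} (hu : u ≠ 0) (hv : v ≠ 0) {a θ : ℝ}
    (hθ : θ ∈ Icc (0 : ℝ) 1) (h : (1 - θ) • (v + a • skew v) + θ • u = 0) :
    0 < θ ∧ θ < 1 ∧ (1 - θ) * (v ⬝ᵥ v) + θ * (u ⬝ᵥ v) = 0 := by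
  have e : (1 - θ) * (v ⬝ᵥ v) + θ * (u ⬝ᵥ v) = 0 := by
    have := congrArg (· ⬝ᵥ v) h
    simpa [add_dotProduct, smul_dotProduct, skew_dot] using this
  have hp := dot_pos hv
  refine ⟨lt_of_le_of_ne hθ.1 ?_, lt_of_le_of_ne hθ.2 ?_, e⟩
  · rintro rfl
    simp only [sub_zero, one_mul, zero_mul, add_zero] at e
    linarith
  · rintro rfl
    exact hu (by simpa using h)

theorem twist_unique {d : ℕ} {u v : Fin d → ℝ} (hu : u ≠ 0) (hv : v ≠ 0) {a b θ η : ℝ}
    (hθ : θ ∈ Icc (0 : ℝ) 1) (hη : η ∈ Icc (0 : ℝ) 1)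
    (h : (1 - θ) • (v + a • skew v) + θ • u = 0) (h' : (1 - η) • (v + b • skew v) + η • u = 0)
    (hgp : ∃ i : Fin d, i ≠ i.rev ∧ (u i ≠ 0 ∨ v i ≠ 0)) : a = b := by
  obtain ⟨t0, t1, e⟩ := twist_neg hu hv hθ h
  obtain ⟨s0, s1, e'⟩ := twist_neg hu hv hη h'
  have hp := dot_pos hv
  have hneg : u ⬝ᵥ v < 0 := by nlinarith
  have hte : θ = η := by
    have : (θ - η) * (v ⬝ᵥ v - u ⬝ᵥ v) = 0 := by linarith
    rcases mul_eq_zero.mp this with h | h
    · linarith
    · linarith
  subst hte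
  by_contra hab
  have hz : skew v = 0 := by
    funext i
    have p := congrFun h i
    have q := congrFun h' i
    simp only [Pi.add_apply, Pi.smul_apply, smul_eq_mul, Pi.zero_apply] at p q ⊢
    have : (1 - θ) * (a - b) * skew v i = 0 := by linarith
    rcases mul_eq_zero.mp this with h | h
    · exact absurd h (mul_ne_zero (by linarith) (sub_ne_zero.mpr hab))
    · exact h
  obtain ⟨i, hi, hor⟩ := hgp
  have vi := skew_eq_zero hz i hi
  have p := congrFun h i
  simp only [hz, Pi.add_apply, Pi.smul_apply, smul_eq_mul, Pi.zero_apply, vi, mul_zero, add_zero,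
    zero_add, mul_eq_zero] at p
  rcases hor with h | h
  · exact h (p.resolve_left t0.ne')
  · exact h vi

/-- General position of a pair of extensions. -/
theorem general_position [T2Space X] [CompactSpace X] {d : ℕ} {A K K0 K1 : Set X}
    (hA : IsClosed A) (hK : IsClosed K) (hK0 : IsClosed K0) (hK1 : IsClosed K1)
    (hsub : K0 ⊆ K) {g : X → Fin d → ℝ} (hg : ∀ x ∈ A, g x ≠ 0)
    (hd : (∀ i : Fin d, i ≠ i.rev) ∨ (DimLe K d ∧ 3 ≤ d))
    (g0 : GoodE A g K0) (g1 : GoodE A g K1) :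
    ∃ h0 h1 : X → Fin d → ℝ, Continuous h0 ∧ Continuous h1 ∧ EqOn h0 g A ∧ EqOn h1 g A ∧
      (∀ x ∈ K0, h0 x ≠ 0) ∧ (∀ x ∈ K1, h1 x ≠ 0) ∧
      ∀ x ∈ K0 ∩ K1, h0 x ⬝ᵥ h1 x ≤ 0 → ∃ i : Fin d, i ≠ i.rev ∧ (h0 x i ≠ 0 ∨ h1 x i ≠ 0) := by
  classical
  obtain ⟨h0, c0, e0, n0⟩ := g0
  obtain ⟨h1, c1, e1, n1⟩ := g1
  rcases hd with hd | ⟨hD, hd⟩
  · refine ⟨h0, h1, c0, c1, e0, e1, n0, n1, fun x hx _ => ?_⟩
    obtain ⟨i, hi⟩ := Function.ne_iff.mp (n0 x hx.1)
    exact ⟨i, hd i, Or.inl hi⟩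
  have cdot : Continuous fun x => h0 x ⬝ᵥ h1 x := c0.dotProduct c1
  have hB : IsClosed {x | h0 x ⬝ᵥ h1 x ≤ 0} := isClosed_le cdot continuous_const
  obtain ⟨σ, σ0, σ1, hσ⟩ := exists_continuous_zero_one_of_isClosed hA hB
    (Set.disjoint_left.mpr fun x hx hz => by
      have := dot_pos (hg x hx)
      simp only [mem_ofPred_eq, e0 hx, e1 hx] at hz
      linarith)
  have cσ := σ.continuous
  have hC : IsClosed {x | σ x ≤ 1 / 2} := isClosed_le cσ continuous_const
  obtain ⟨ε0, hε0, m0⟩ := margin hK0.isCompact c0 (isOpen_compl_singleton (x := 0)) n0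
  obtain ⟨ε1, hε1, m1⟩ := margin hK1.isCompact c1 (isOpen_compl_singleton (x := 0)) n1
  obtain ⟨ε2, hε2, m2⟩ := margin hC.isCompact (c0.prodMk c1)
    (G := {y : (Fin d → ℝ) × (Fin d → ℝ) | 0 < y.1 ⬝ᵥ y.2})
    (isOpen_lt continuous_const (continuous_fst.dotProduct continuous_snd)) (by
      intro x hx
      by_contra hz
      have hz' : h0 x ⬝ᵥ h1 x ≤ 0 := not_lt.mp hz
      have := σ1 hz'
      simp only [Pi.one_apply, mem_ofPred_eq] at this hx
      linarith)
  set ε := min ε0 (min ε1 ε2) with hε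
  have hεp : 0 < ε := lt_min hε0 (lt_min hε1 hε2)
  have hcard : d < Fintype.card ({i : Fin d // i ≠ i.rev} ⊕ {i : Fin d // i ≠ i.rev}) := by
    have h1 : Fintype.card {i : Fin d // i = i.rev} ≤ 1 := by
      rw [Fintype.card_le_one_iff]
      rintro ⟨a, ha⟩ ⟨b, hb⟩
      have ha' := congrArg Fin.val ha
      have hb' := congrArg Fin.val hb
      rw [Fin.val_rev] at ha' hb'
      have := a.2
      have := b.2
      exact Subtype.ext (Fin.ext (by simp only; omega))
    have h2 : Fintype.card {i : Fin d // i ≠ i.rev} =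
        d - Fintype.card {i : Fin d // i = i.rev} := by
      simp
    rw [Fintype.card_sum, h2]
    omega
  obtain ⟨F, cF, hF, nF⟩ := approx hK hD hcard
    (F := fun x => Sum.elim (fun i => h0 x i.1) (fun i => h1 x i.1))
    (continuous_pi fun j => by
      rcases j with i | i
      · exact (continuous_apply i.1).comp c0
      · exact (continuous_apply i.1).comp c1) hεp
  set δ0 : X → Fin d → ℝ := fun x i =>
    if h : i ≠ i.rev then F x (Sum.inl ⟨i, h⟩) - h0 x i else 0 with hδ0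
  set δ1 : X → Fin d → ℝ := fun x i =>
    if h : i ≠ i.rev then F x (Sum.inr ⟨i, h⟩) - h1 x i else 0 with hδ1
  have cδ0 : Continuous δ0 := continuous_pi fun i => by
    simp only [hδ0]
    split_ifs
    · fun_prop
    · exact continuous_const
  have cδ1 : Continuous δ1 := continuous_pi fun i => by
    simp only [hδ1]
    split_ifs
    · fun_prop
    · exact continuous_const
  have b0 : ∀ x i, |δ0 x i| ≤ ε := fun x i => by
    simp only [hδ0]
    split_ifs with h
    · exact hF x (Sum.inl ⟨i, h⟩)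
    · simpa using hεp.le
  have b1 : ∀ x i, |δ1 x i| ≤ ε := fun x i => by
    simp only [hδ1]
    split_ifs with h
    · exact hF x (Sum.inr ⟨i, h⟩)
    · simpa using hεp.le
  have near : ∀ (x : X) (u w : Fin d → ℝ), (∀ i, |w i| ≤ ε) →
      dist (u + min 1 (2 * σ x) • w) u ≤ ε := by
    intro x u w hw
    rw [dist_pi_le_iff hεp.le]
    intro i
    have a0 : 0 ≤ min 1 (2 * σ x) := le_min zero_le_one (by linarith [(hσ x).1])
    simp only [Pi.add_apply, Pi.smul_apply, smul_eq_mul, Real.dist_eq,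
      add_sub_cancel_left, abs_mul, abs_of_nonneg a0]
    calc _ ≤ 1 * ε := mul_le_mul (min_le_left _ _) (hw i) (abs_nonneg _) zero_le_one
      _ = ε := one_mul _
  refine ⟨fun x => h0 x + min 1 (2 * σ x) • δ0 x, fun x => h1 x + min 1 (2 * σ x) • δ1 x,
    by fun_prop, by fun_prop, fun x hx => ?_, fun x hx => ?_, fun x hx => ?_, fun x hx => ?_,
    fun x hx hle => ?_⟩
  · have := σ0 hx
    simp only [Pi.zero_apply] at this
    simp [this, e0 hx]
  · have := σ0 hx
    simp only [Pi.zero_apply] at this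
    simp [this, e1 hx]
  · exact m0 x hx _ ((near x _ _ (b0 x)).trans (min_le_left _ _))
  · exact m1 x hx _ ((near x _ _ (b1 x)).trans ((min_le_right _ _).trans (min_le_left _ _)))
  · by_cases hx' : σ x ≤ 1 / 2
    · have le2 : ε ≤ ε2 := (min_le_right _ _).trans (min_le_right _ _)
      have := m2 x hx' (h0 x + min 1 (2 * σ x) • δ0 x, h1 x + min 1 (2 * σ x) • δ1 x) (by
        rw [Prod.dist_eq]
        exact max_le ((near x _ _ (b0 x)).trans le2) ((near x _ _ (b1 x)).trans le2))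
      exact absurd this (not_lt.mpr hle)
    · have e : min 1 (2 * σ x) = 1 := min_eq_left (by linarith)
      obtain ⟨j, hj⟩ := Function.ne_iff.mp (nF x (hsub hx.1))
      rcases j with ⟨i, hi⟩ | ⟨i, hi⟩
      · refine ⟨i, hi, Or.inl ?_⟩
        simpa only [e, hδ0, Pi.add_apply, one_smul, dif_pos hi, add_sub_cancel, Pi.zero_apply] using hj
      · refine ⟨i, hi, Or.inr ?_⟩
        simpa only [e, hδ1, Pi.add_apply, one_smul, dif_pos hi, add_sub_cancel, Pi.zero_apply] using hj

/-- A decomposition of a minimal set produces a continuum whose complement in a larger continuum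
has uncountably many components. -/
theorem indecomposable_of_minimal [T2Space X] [CompactSpace X] {d : ℕ}
    (hX : ∀ T Z : Set X, IsCompact T → IsConnected T → IsCompact Z → IsConnected Z → Z ⊆ T →
      Countable (ConnectedComponents (T \ Z : Set X)))
    {A K : Set X} {g : X → Fin d → ℝ} (hA : IsClosed A) (hg : ∀ x ∈ A, g x ≠ 0)
    (hK : IsClosed K) (hd : (∀ i : Fin d, i ≠ i.rev) ∨ (DimLe K d ∧ 3 ≤ d))
    (hbad : ¬ GoodE A g K)
    (hmin : ∀ K' : Set X, IsClosed K' → K' ⊆ K → K' ≠ K → GoodE A g K')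
    {P Q : Set X} (hP : IsCompact P) (hPc : IsConnected P) (hQ : IsCompact Q)
    (hPQ : P ∪ Q = K) : P = K ∨ Q = K := by
  by_contra hcon
  push Not at hcon
  have hPK : P ⊆ K := hPQ ▸ subset_union_left
  have hQK : Q ⊆ K := hPQ ▸ subset_union_right
  obtain ⟨p, hpK, hpQ⟩ : ∃ p ∈ K, p ∉ Q := by
    by_contra h
    push Not at h
    exact hcon.2 (subset_antisymm hQK h)
  obtain ⟨q, hqK, hqP⟩ : ∃ q ∈ K, q ∉ P := by
    by_contra h
    push Not at h
    exact hcon.1 (subset_antisymm hPK h)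
  obtain ⟨V0, hpV, hV0, hV0Q⟩ : ∃ V : Set X, p ∈ V ∧ IsOpen V ∧ closure V ⊆ Qᶜ := by
    obtain ⟨V, o, a, b⟩ := normal_exists_closure_subset (isClosed_singleton (x := p))
      hQ.isClosed.isOpen_compl (singleton_subset_iff.mpr hpQ)
    exact ⟨V, a rfl, o, b⟩
  obtain ⟨V1, hqV, hV1, hV1P⟩ : ∃ V : Set X, q ∈ V ∧ IsOpen V ∧ closure V ⊆ Pᶜ := by
    obtain ⟨V, o, a, b⟩ := normal_exists_closure_subset (isClosed_singleton (x := q))
      hP.isClosed.isOpen_compl (singleton_subset_iff.mpr hqP)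
    exact ⟨V, a rfl, o, b⟩
  obtain ⟨h0, h1, c0, c1, e0, e1, n0, n1, gp⟩ := general_position hA hK (hK.sdiff hV0)
    (hK.sdiff hV1) sdiff_subset hg hd
    (hmin (K \ V0) (hK.sdiff hV0) sdiff_subset fun h => (h.symm ▸ hpK : p ∈ K \ V0).2 hpV)
    (hmin (K \ V1) (hK.sdiff hV1) sdiff_subset fun h => (h.symm ▸ hqK : q ∈ K \ V1).2 hqV)
  set N : Set X := (K \ V0) ∩ (K \ V1) with hN
  have hNc : IsClosed N := (hK.sdiff hV0).inter (hK.sdiff hV1)
  have hS0P : K ∩ closure V0 ⊆ P :=
    fun x hx => ((hPQ.symm ▸ hx.1 : x ∈ P ∪ Q)).resolve_right (hV0Q hx.2)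
  have hS01 : Disjoint (K ∩ closure V0) (K ∩ closure V1) :=
    Set.disjoint_left.mpr fun x h0 h1 => hV1P h1.2 (hS0P h0)
  have hB : IsClosed {x | h0 x ⬝ᵥ h1 x ≤ 0} := isClosed_le (c0.dotProduct c1) continuous_const
  obtain ⟨τ, τ0, τ1, -⟩ := exists_continuous_zero_one_of_isClosed hA hB
    (Set.disjoint_left.mpr fun x hx hz => by
      have := dot_pos (hg x hx)
      simp only [mem_ofPred_eq, e0 hx, e1 hx] at hz
      linarith)
  have cτ := τ.continuous
  have cs : Continuous fun x => skew (h1 x) := continuous_skew.comp c1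
  obtain ⟨f, -, cf, finj⟩ := (isClosed_univ (X := ℝ)).exists_nat_bool_injection_of_not_countable
    not_countable_univ
  set W : Set (ℕ → Bool) → Set X := fun S => {x | x ∈ N ∧ ∃ s ∈ S, ∃ θ ∈ Icc (0 : ℝ) 1,
    (1 - θ) • (h1 x + (f s * τ x) • skew (h1 x)) + θ • h0 x = 0} with hW
  have hWc : ∀ S, IsClosed S → IsClosed (W S) := by
    intro S hS
    have k : IsCompact ((N ×ˢ S ×ˢ Icc (0 : ℝ) 1) ∩ {y : X × (ℕ → Bool) × ℝ |
        (1 - y.2.2) • (h1 y.1 + (f y.2.1 * τ y.1) • skew (h1 y.1)) + y.2.2 • h0 y.1 = 0}) :=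
      (hNc.isCompact.prod (hS.isCompact.prod isCompact_Icc)).inter_right
        (isClosed_eq (by
          have a1 : Continuous fun y : X × (ℕ → Bool) × ℝ => h1 y.1 := c1.comp continuous_fst
          have a0 : Continuous fun y : X × (ℕ → Bool) × ℝ => h0 y.1 := c0.comp continuous_fst
          have a2 : Continuous fun y : X × (ℕ → Bool) × ℝ => skew (h1 y.1) :=
            cs.comp continuous_fst
          have a3 : Continuous fun y : X × (ℕ → Bool) × ℝ => f y.2.1 * τ y.1 :=
            (cf.comp continuous_snd.fst).mul (cτ.comp continuous_fst)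
          have a4 : Continuous fun y : X × (ℕ → Bool) × ℝ => y.2.2 := continuous_snd.snd
          exact ((continuous_const.sub a4).smul (a1.add (a3.smul a2))).add (a4.smul a0))
          continuous_const)
    convert (k.image continuous_fst).isClosed using 1
    ext x
    constructor
    · rintro ⟨hx, s, hs, θ, hθ, e⟩
      exact ⟨(x, s, θ), ⟨⟨hx, hs, hθ⟩, e⟩, rfl⟩
    · rintro ⟨⟨y, s, θ⟩, ⟨⟨hx, hs, hθ⟩, e⟩, rfl⟩
      exact ⟨hx, s, hs, θ, hθ, e⟩
  have hWd : ∀ S, Disjoint (W S) (W Sᶜ) := by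
    intro S
    rw [Set.disjoint_left]
    rintro x ⟨hx, s, hs, θ, hθ, e⟩ ⟨-, s', hs', θ', hθ', e'⟩
    have hu := n0 x hx.1
    have hv := n1 x hx.2
    obtain ⟨t0, t1, ed⟩ := twist_neg hu hv hθ e
    have hp := dot_pos hv
    have hneg : h0 x ⬝ᵥ h1 x ≤ 0 := by nlinarith
    have ht := τ1 hneg
    simp only [Pi.one_apply] at ht
    have := twist_unique hu hv hθ hθ' e e' (gp x hx hneg)
    rw [ht, mul_one, mul_one] at this
    exact hs' (finj this ▸ hs)
  have hcr : ∀ s : ℕ → Bool, ∃ C ⊆ W {s}, IsCompact C ∧ IsConnected C ∧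
      (C ∩ (K ∩ closure V0)).Nonempty ∧ (C ∩ (K ∩ closure V1)).Nonempty := by
    intro s
    refine cross (h1 := fun x => h1 x + (f s * τ x) • skew (h1 x)) hK hbad hS01 c0 (by fun_prop)
      e0 (fun x hx => ?_) n0 (fun x hx hz => ?_) (hWc _ isClosed_singleton)
      (fun x hx θ hθ e => ⟨hx, s, rfl, θ, hθ, e⟩)
    · have := τ0 hx
      simp only [Pi.zero_apply] at this
      simp [this, e1 hx]
    · have := congrArg (· ⬝ᵥ h1 x) hz
      have hp := dot_pos (n1 x hx)
      simp only [add_dotProduct, smul_dotProduct, skew_dot, smul_zero, add_zero,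
        zero_dotProduct] at this
      linarith
  choose C hCW hCk hCc hC0 hC1 using hcr
  have hWm : ∀ s S, s ∈ S → C s ⊆ W S := by
    intro s S hs x hx
    obtain ⟨a, s', hs', b⟩ := hCW s hx
    exact ⟨a, s', (show s' = s from hs') ▸ hs, b⟩
  set T : Set X := closure (⋃ s, (P ∪ C s)) with hT
  have hTc : IsConnected T := by
    refine IsConnected.closure ⟨?_, isPreconnected_iUnion ?_ fun s => ?_⟩
    · exact hPc.nonempty.mono (subset_union_left.trans (subset_iUnion (fun s => P ∪ C s) default))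
    · exact hPc.nonempty.mono (subset_iInter fun s => subset_union_left)
    · obtain ⟨x, hx, hx0⟩ := hC0 s
      exact (IsConnected.union ⟨x, hS0P hx0, hx⟩ hPc (hCc s)).isPreconnected
  have hPT : P ⊆ T :=
    (subset_union_left.trans (subset_iUnion (fun s => P ∪ C s) default)).trans subset_closure
  have hcount := hX T P isClosed_closure.isCompact hTc hP hPc hPT
  have pick : ∀ s, ∃ a : (T \ P : Set X), a.1 ∈ C s := fun s => by
    obtain ⟨x, hx, hx1⟩ := hC1 s
    exact ⟨⟨x, subset_closure (mem_iUnion.mpr ⟨s, Or.inr hx⟩), hV1P hx1.2⟩, hx⟩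
  choose a ha using pick
  have inj : Function.Injective fun s => ConnectedComponents.mk (a s) := by
    intro s s' hss
    funext n
    set S : Set (ℕ → Bool) := {r | r n = s n} with hS
    have hScl : IsClopen S := (isClopen_discrete {s n}).preimage (continuous_apply n)
    have hcov : T ⊆ P ∪ (W S ∪ W Sᶜ) := by
      refine closure_minimal (iUnion_subset fun r => union_subset_union_right _ ?_)
        (hP.isClosed.union ((hWc _ hScl.isClosed).union (hWc _ hScl.compl.isClosed)))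
      by_cases hr : r ∈ S
      · exact (hWm r S hr).trans subset_union_left
      · exact (hWm r Sᶜ hr).trans subset_union_right
    have hcl : IsClopen ((Subtype.val : (T \ P : Set X) → X) ⁻¹' W S) := by
      refine ⟨(hWc _ hScl.isClosed).preimage continuous_subtype_val, ?_⟩
      rw [← isClosed_compl_iff]
      convert (hWc _ hScl.compl.isClosed).preimage
        (continuous_subtype_val (p := (· ∈ (T \ P : Set X)))) using 1
      ext y
      constructor
      · intro hy
        exact ((hcov y.2.1).resolve_left y.2.2).resolve_left hy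
      · intro hy hy'
        exact Set.disjoint_left.mp (hWd S) hy' hy
    have h1 : a s' ∈ connectedComponent (a s) := ConnectedComponents.coe_eq_coe'.mp hss.symm
    have h2 := hcl.connectedComponent_subset (x := a s) (hWm s S rfl (ha s)) h1
    by_contra hne
    exact Set.disjoint_left.mp (hWd S) h2 (hWm s' Sᶜ (fun h => hne (Eq.symm h)) (ha s'))
  have : Countable (ℕ → Bool) := inj.countable
  obtain ⟨e, he⟩ := exists_surjective_nat (ℕ → Bool)
  obtain ⟨n, hn⟩ := he fun n => !(e n n)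
  have := congrFun hn n
  simp at this

theorem exists_indecomposable [T2Space X] [CompactSpace X]
    (hX : ∀ T Z : Set X, IsCompact T → IsConnected T → IsCompact Z → IsConnected Z → Z ⊆ T →
      Countable (ConnectedComponents (T \ Z : Set X)))
    {n : ℕ} (hn : 1 ≤ n) (hD : ¬ DimLe (univ : Set X) n) :
    ∃ K : Set X, IsCompact K ∧ IsConnected K ∧ ¬ DimLe K n ∧
      ∀ P Q : Set X, IsCompact P → IsConnected P → IsCompact Q → P ∪ Q = K → P = K ∨ Q = K := by
  have core : ∀ m : ℕ, ¬ DimLe (univ : Set X) m →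
      (Odd m ∨ (DimLe (univ : Set X) (m + 1) ∧ 2 ≤ m)) →
      ∃ K : Set X, IsCompact K ∧ IsConnected K ∧ ¬ DimLe K m ∧
      ∀ P Q : Set X, IsCompact P → IsConnected P → IsCompact Q → P ∪ Q = K → P = K ∨ Q = K := by
    intro m hm hor
    obtain ⟨A, g, hA, cg, hg, hbad⟩ := exists_bad hm
    obtain ⟨K, hK, hb, hmin⟩ := exists_minimal hbad
    have hKc := connected_of_minimal cg hK hb hmin
    refine ⟨K, hK.isCompact, hKc, fun h => hb (good_of_dimLe hA hK h (by simp) cg hg),
      fun P Q hP hPc hQ hPQ => indecomposable_of_minimal hX hA hg hK ?_ hb hmin hP hPc hQ hPQ⟩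
    rcases hor with ⟨k, hk⟩ | ⟨h1, h2⟩
    · refine Or.inl fun i hi => ?_
      have := congrArg Fin.val hi
      rw [Fin.val_rev] at this
      have := i.2
      omega
    · exact Or.inr ⟨dimLe_of_closed hK hKc.nonempty h1, by omega⟩
  rcases Nat.even_or_odd n with he | ho
  · by_cases h : DimLe (univ : Set X) (n + 1)
    · refine core n hD (Or.inr ⟨h, ?_⟩)
      obtain ⟨k, hk⟩ := he
      omega
    · obtain ⟨K, a, b, c, e⟩ := core (n + 1) h (Or.inl he.add_one)
      exact ⟨K, a, b, fun h' => c (dimLe_mono (Nat.le_succ n) h'), e⟩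
  · exact core n hD (Or.inl ho)

end Pool.Agent.P.MP_892330_gt.All
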