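import Pool.Agent.P.MP_892330_gt.All.Ext

/-! Covering dimension versus extension of maps into punctured coordinate spaces. -/

namespace Pool.Agent.P.MP_892330_gt.All

open Set Topology

variable {X : Type*} [TopologicalSpace X]

theorem dimLe_mono {K : Set X} {m n : ℕ} (hmn : m ≤ n) (h : DimLe K m) : DimLe K n := by
  intro k U hU hc
  obtain ⟨l, V, a, b, c, d⟩ := h k U hU hc
  exact ⟨l, V, a, b, c, fun x hx => (d x hx).trans (by omega)⟩

theorem shrink {K : Set X} {m : ℕ} (h : DimLe K m) {κ : Type*} [Fintype κ]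
    (hκ : m + 1 < Fintype.card κ) (U : κ → Set X) (hU : ∀ o, IsOpen (U o)) (hc : K ⊆ ⋃ o, U o) :
    ∃ V : κ → Set X, (∀ o, IsOpen (V o)) ∧ K ⊆ ⋃ o, V o ∧ (∀ o, V o ⊆ U o) ∧
      ∀ x ∈ K, ∃ o, x ∉ V o := by
  classical
  let e := (Fintype.equivFin κ).symm
  obtain ⟨k, W, hW, hWc, hWr, hWo⟩ := h _ (fun i => U (e i)) (fun i => hU _) (by
    intro x hx
    obtain ⟨o, ho⟩ := mem_iUnion.mp (hc hx)
    exact mem_iUnion.mpr ⟨e.symm o, by simpa using ho⟩)
  choose c hcW using hWr
  refine ⟨fun o => ⋃ j ∈ {j | e (c j) = o}, W j, fun o => isOpen_biUnion fun j _ => hW j,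
    fun x hx => ?_, fun o x hx => ?_, fun x hx => ?_⟩
  · obtain ⟨j, hj⟩ := mem_iUnion.mp (hWc hx)
    exact mem_iUnion.mpr ⟨e (c j), mem_biUnion (show j ∈ {j' | e (c j') = e (c j)} from rfl) hj⟩
  · obtain ⟨j, hj, hxj⟩ := mem_iUnion₂.mp hx
    exact (show e (c j) = o from hj) ▸ hcW j hxj
  · by_contra hcon
    push Not at hcon
    have : ∀ o, ∃ j, e (c j) = o ∧ x ∈ W j := fun o => by
      obtain ⟨j, hj, hxj⟩ := mem_iUnion₂.mp (hcon o)
      exact ⟨j, hj, hxj⟩
    choose j hj hxj using this
    have hinj : Function.Injective j := fun a b hab => by rw [← hj a, ← hj b, hab]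
    have h1 : (range j).ncard ≤ {j : Fin k | x ∈ W j}.ncard :=
      ncard_le_ncard (by rintro _ ⟨o, rfl⟩; exact hxj o)
    rw [ncard_range_of_injective hinj, Nat.card_eq_fintype_card] at h1
    have := hWo x hx
    omega

/-- Zero is an unstable value of maps of a low dimensional set. -/
theorem approx [T2Space X] [CompactSpace X] {K : Set X} (hK : IsClosed K) {m : ℕ}
    (h : DimLe K m) {ι : Type*} [Fintype ι] (hι : m < Fintype.card ι) {F : X → ι → ℝ}
    (hF : Continuous F) {ε : ℝ} (hε : 0 < ε) :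
    ∃ F' : X → ι → ℝ, Continuous F' ∧ (∀ x i, |F' x i - F x i| ≤ ε) ∧ ∀ x ∈ K, F' x ≠ 0 := by
  classical
  set η : ℝ := ε / 2 with hη
  have hη0 : 0 < η := by positivity
  set H : Option ι → X → ℝ := fun o x => o.elim 0 (F x) with hH
  have cH : ∀ o, Continuous (H o) := by
    rintro (_ | i)
    · exact continuous_const
    · exact (continuous_apply i).comp hF
  set μ : X → ℝ := fun x => Finset.univ.inf' Finset.univ_nonempty fun o => H o x with hμ
  have cμ : Continuous μ := Continuous.finset_inf'_apply _ fun o _ => cH o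
  have μle : ∀ o x, μ x ≤ H o x := fun o x => Finset.inf'_le (fun o => H o x) (Finset.mem_univ o)
  obtain ⟨V, hV, hVc, hVU, hVe⟩ := shrink h (κ := Option ι) (by simpa using hι)
    (fun o => {x | H o x - μ x < η}) (fun o => isOpen_lt ((cH o).sub cμ) continuous_const) (by
      intro x _
      obtain ⟨o, -, ho⟩ := Finset.exists_mem_eq_inf' Finset.univ_nonempty fun o => H o x
      refine mem_iUnion.mpr ⟨o, ?_⟩
      have : μ x = H o x := ho
      simp only [mem_ofPred_eq, this, sub_self, hη0])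
  obtain ⟨ρ, hρ⟩ := PartitionOfUnity.exists_isSubordinate hK V hV hVc
  have ρ0 : ∀ o x, x ∉ V o → ρ o x = 0 := fun o x hx =>
    image_eq_zero_of_notMem_tsupport fun h => hx (hρ o h)
  set y : Option ι → X → ℝ := fun o x => max (H o x - μ x) η - η * ρ o x with hy
  have cy : ∀ o, Continuous (y o) := fun o => by
    have := (ρ o).continuous
    have := cH o
    simp only [hy]
    fun_prop
  have est : ∀ o x, |y o x - (H o x - μ x)| ≤ η := by
    intro o x
    have a0 := ρ.nonneg o x
    have a1 := ρ.le_one o x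
    have a2 := μle o x
    by_cases hx : H o x - μ x < η
    · simp only [hy, max_eq_right hx.le]
      rw [abs_le]
      constructor <;> nlinarith
    · simp only [hy, ρ0 o x fun h => hx (hVU o h), max_eq_left (not_lt.mp hx)]
      simpa using hη0.le
  refine ⟨fun x i => y (some i) x - y none x, continuous_pi fun i => (cy _).sub (cy _),
    fun x i => ?_, fun x hx hz => ?_⟩
  · have a := abs_le.mp (est (some i) x)
    have b := abs_le.mp (est none x)
    have e1 : H (some i) x = F x i := rfl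
    have e2 : H none x = 0 := rfl
    rw [e1] at a
    rw [e2] at b
    rw [abs_le]
    constructor <;> linarith [a.1, a.2, b.1, b.2]
  · have all : ∀ o, y o x = y none x := by
      rintro (_ | i)
      · rfl
      · exact sub_eq_zero.mp (congrFun hz i)
    obtain ⟨o, ho⟩ := ρ.exists_pos hx
    obtain ⟨o', ho'⟩ := hVe x hx
    have hxV : x ∈ V o := by
      by_contra hc
      rw [ρ0 o x hc] at ho
      exact lt_irrefl _ ho
    have h1 : y o x < η := by
      have : H o x - μ x < η := hVU o hxV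
      simp only [hy, max_eq_right this.le]
      nlinarith
    have h2 : η ≤ y o' x := by
      simp only [hy, ρ0 o' x ho', mul_zero, sub_zero]
      exact le_max_right _ _
    rw [all o] at h1
    rw [all o'] at h2
    linarith

theorem good_of_dimLe [T2Space X] [CompactSpace X] {A K : Set X} (hA : IsClosed A)
    (hK : IsClosed K) {m : ℕ} (h : DimLe K m) {ι : Type*} [Fintype ι] (hι : m < Fintype.card ι)
    {g : X → ι → ℝ} (cg : Continuous g) (hg : ∀ x ∈ A, g x ≠ 0) : GoodE A g K := by
  have hZ : IsClosed {x | g x = 0} := isClosed_eq cg continuous_const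
  obtain ⟨σ, σ0, σ1, hσ⟩ := exists_continuous_zero_one_of_isClosed hA hZ
    (Set.disjoint_left.mpr fun x hx hz => hg x hx hz)
  have cσ := σ.continuous
  have hC : IsClosed {x | σ x ≤ 1 / 2} := isClosed_le cσ continuous_const
  obtain ⟨ε, hε, hm⟩ := margin hC.isCompact cg (isOpen_compl_singleton (x := (0 : ι → ℝ))) (by
    intro x hx hz
    have := σ1 hz
    simp only [Pi.one_apply, mem_ofPred_eq] at this hx
    linarith)
  obtain ⟨F, cF, hF, nF⟩ := approx hK h hι cg hε
  refine ⟨fun x => g x + min 1 (2 * σ x) • (F x - g x), by fun_prop, fun x hx => ?_,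
    fun x hx => ?_⟩
  · have := σ0 hx
    simp only [Pi.zero_apply] at this
    simp [this]
  · by_cases hx' : σ x ≤ 1 / 2
    · refine hm x hx' _ ?_
      rw [dist_pi_le_iff hε.le]
      intro i
      have a0 : 0 ≤ min 1 (2 * σ x) := le_min zero_le_one (by linarith [(hσ x).1])
      simp only [Pi.add_apply, Pi.smul_apply, Pi.sub_apply, smul_eq_mul, Real.dist_eq,
        add_sub_cancel_left, abs_mul, abs_of_nonneg a0]
      calc _ ≤ 1 * ε := mul_le_mul (min_le_left _ _) (hF x i) (abs_nonneg _) zero_le_one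
        _ = ε := one_mul _
    · beta_reduce
      rw [min_eq_left (by linarith)]
      simpa using nF x hx

/-- Covers by `n + 2` open sets detect dimension at most `n`. -/
theorem dimLe_of_small {n : ℕ}
    (h : ∀ U : Fin (n + 2) → Set X, (∀ i, IsOpen (U i)) → (∀ x, ∃ i, x ∈ U i) →
      ∃ V : Fin (n + 2) → Set X, (∀ i, IsOpen (V i)) ∧ (∀ x, ∃ i, x ∈ V i) ∧ (∀ i, V i ⊆ U i) ∧
        ∀ x, ∃ i, x ∉ V i) : DimLe (univ : Set X) n := by
  classical
  intro m U hU hcov
  have main : ∀ s : Finset (Fin (n + 2) → Fin m), ∃ W : Fin m → Set X, (∀ i, IsOpen (W i)) ∧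
      (∀ x, ∃ i, x ∈ W i) ∧ (∀ i, W i ⊆ U i) ∧
      ∀ e ∈ s, Function.Injective e → ∀ x, ∃ i, x ∉ W (e i) := by
    intro s
    induction s using Finset.induction_on with
    | empty =>
      exact ⟨U, hU, fun x => mem_iUnion.mp (hcov (mem_univ x)), fun _ => subset_rfl, by simp⟩
    | insert e s _ ih =>
      obtain ⟨W, hW, hWc, hWU, hWs⟩ := ih
      by_cases he : Function.Injective e
      swap
      · refine ⟨W, hW, hWc, hWU, fun r hr hne => ?_⟩
        rcases Finset.mem_insert.mp hr with rfl | hr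
        · exact absurd hne he
        · exact hWs r hr hne
      set r : Fin m → Fin (n + 2) := Function.invFun e with hr
      have hre : ∀ i, r (e i) = i := Function.leftInverse_invFun he
      obtain ⟨V, oV, cV, sV, eV⟩ := h (fun i => ⋃ l ∈ {l | r l = i}, W l)
        (fun i => isOpen_biUnion fun l _ => hW l) (fun x => by
          obtain ⟨l, hl⟩ := hWc x
          exact ⟨r l, mem_biUnion (show l ∈ {l' | r l' = r l} from rfl) hl⟩)
      refine ⟨fun l => W l ∩ V (r l), fun l => (hW l).inter (oV _), fun x => ?_,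
        fun l => inter_subset_left.trans (hWU l), fun e' he' hinj x => ?_⟩
      · obtain ⟨i, hi⟩ := cV x
        obtain ⟨l, hl, hxl⟩ := mem_iUnion₂.mp (sV i hi)
        exact ⟨l, hxl, (show r l = i from hl).symm ▸ hi⟩
      · rcases Finset.mem_insert.mp he' with rfl | he'
        · obtain ⟨i, hi⟩ := eV x
          exact ⟨i, fun hx => hi (hre i ▸ hx.2)⟩
        · obtain ⟨i, hi⟩ := hWs e' he' hinj x
          exact ⟨i, fun hx => hi hx.1⟩
  obtain ⟨W, hW, hWc, hWU, hWs⟩ := main Finset.univ
  refine ⟨m, W, hW, fun x _ => mem_iUnion.mpr (hWc x), fun j => ⟨j, hWU j⟩, fun x _ => ?_⟩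
  by_contra hlt
  push Not at hlt
  have hc : Fintype.card (Fin (n + 2)) ≤ Fintype.card {j : Fin m | x ∈ W j} := by
    rw [Fintype.card_fin, ← Nat.card_eq_fintype_card, Nat.card_coe_set_eq]
    omega
  obtain ⟨e⟩ := Function.Embedding.nonempty_of_card_le hc
  obtain ⟨i, hi⟩ := hWs (fun i => (e i).1) (Finset.mem_univ _)
    (Subtype.val_injective.comp e.injective) x
  exact hi (e i).2

/-- A space of dimension above `n` carries a map that does not extend. -/
theorem exists_bad [T2Space X] [CompactSpace X] {n : ℕ} (hD : ¬ DimLe (univ : Set X) n) :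
    ∃ (A : Set X) (g : X → Fin (n + 1) → ℝ), IsClosed A ∧ Continuous g ∧ (∀ x ∈ A, g x ≠ 0) ∧
      ¬ GoodE A g univ := by
  by_contra hcon
  refine hD (dimLe_of_small fun U hU hc => ?_)
  obtain ⟨ρ, hρ⟩ := PartitionOfUnity.exists_isSubordinate isClosed_univ U hU
    (fun x _ => mem_iUnion.mpr (hc x))
  have ρ0 : ∀ o x, x ∉ U o → ρ o x = 0 := fun o x hx =>
    image_eq_zero_of_notMem_tsupport fun h => hx (hρ o h)
  have hA : IsClosed (⋃ i, {x | ρ i x = 0}) :=
    isClosed_iUnion_of_finite fun i => isClosed_eq (ρ i).continuous continuous_const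
  have hgood : GoodE (⋃ i, {x | ρ i x = 0}) (fun x (i : Fin (n + 1)) => ρ i.succ x - ρ 0 x)
      univ := by
    by_contra hb
    refine hcon ⟨_, _, hA, continuous_pi fun i => (ρ _).continuous.sub (ρ _).continuous, ?_, hb⟩
    intro x hx hz
    have all : ∀ i, ρ i x = ρ 0 x := fun i =>
      Fin.cases rfl (fun j => sub_eq_zero.mp (congrFun hz j)) i
    obtain ⟨i, hi⟩ := mem_iUnion.mp hx
    obtain ⟨j, hj⟩ := ρ.exists_pos (mem_univ x)
    have hi' : ρ i x = 0 := hi
    rw [all j, ← all i, hi'] at hj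
    exact lt_irrefl _ hj
  obtain ⟨h, ch, eh, nh⟩ := hgood
  set H : Fin (n + 2) → X → ℝ := fun i x => (Fin.cons 0 (h x) : Fin (n + 2) → ℝ) i with hH
  have cH : ∀ i, Continuous (H i) := fun i =>
    Fin.cases continuous_const (fun j => (continuous_apply j).comp ch) i
  refine ⟨fun i => ⋃ j, {x | H j x < H i x},
    fun i => isOpen_iUnion fun j => isOpen_lt (cH j) (cH i), fun x => ?_, fun i x hx => ?_,
    fun x => ?_⟩
  · by_contra hno
    push Not at hno
    simp only [mem_iUnion, mem_ofPred_eq, not_exists, not_lt] at hno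
    refine nh x (mem_univ x) (funext fun j => ?_)
    exact le_antisymm (hno j.succ 0) (hno 0 j.succ)
  · by_contra hU'
    have hz := ρ0 i x hU'
    have e := eh (mem_iUnion.mpr ⟨i, hz⟩)
    have all : ∀ j, H j x = ρ j x - ρ 0 x := fun j =>
      Fin.cases (by simp [hH]) (fun k => congrFun e k) j
    obtain ⟨j, hj⟩ := mem_iUnion.mp hx
    have hj' : H j x < H i x := hj
    rw [all j, all i, hz] at hj'
    linarith [ρ.nonneg j x]
  · obtain ⟨i, hi⟩ := Finite.exists_min fun i => H i x
    refine ⟨i, fun hx => ?_⟩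
    obtain ⟨j, hj⟩ := mem_iUnion.mp hx
    exact absurd (hi j) (not_le.mpr hj)

end Pool.Agent.P.MP_892330_gt.All
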