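import Pool.Agent.P.MP_892330_gt.Dim

/-! Extension of maps into punctured normed spaces: minimal sets, gluing, crossing continua. -/

namespace Pool.Agent.P.MP_892330_gt.All

open Set Topology

variable {X : Type*} [TopologicalSpace X] {E : Type*} [NormedAddCommGroup E] [NormedSpace ℝ E]

/-- `g` restricted to `A` extends to a continuous map without zeros on `K`. -/
def GoodE (A : Set X) (g : X → E) (K : Set X) : Prop :=
  ∃ h : X → E, Continuous h ∧ EqOn h g A ∧ ∀ x ∈ K, h x ≠ 0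

omit [NormedSpace ℝ E] in
theorem exists_minimal [CompactSpace X] {A : Set X} {g : X → E} (h : ¬ GoodE A g univ) :
    ∃ K : Set X, IsClosed K ∧ ¬ GoodE A g K ∧
      ∀ K' : Set X, IsClosed K' → K' ⊆ K → K' ≠ K → GoodE A g K' := by
  obtain ⟨K, -, hK⟩ := zorn_superset_nonempty {K : Set X | IsClosed K ∧ ¬ GoodE A g K}
    (by
      intro c hc hchain hne
      refine ⟨⋂₀ c, ⟨isClosed_sInter fun s hs => (hc hs).1, ?_⟩,
        fun s hs => sInter_subset_of_mem hs⟩
      rintro ⟨h, hcont, he, hn⟩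
      have : Nonempty c := hne.to_subtype
      have hz : IsClosed {x | h x = 0} := isClosed_eq hcont continuous_const
      obtain ⟨i, hi⟩ := hz.isCompact.elim_directed_family_closed (fun i : c => (i : Set X))
        (fun i => (hc i.2).1) (by
          rw [eq_empty_iff_forall_notMem]
          rintro x ⟨hx0, hx⟩
          rw [← sInter_eq_iInter] at hx
          exact hn x hx hx0) (by
          intro i j
          rcases hchain.total i.2 j.2 with hij | hij
          · exact ⟨i, subset_rfl, hij⟩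
          · exact ⟨j, hij, subset_rfl⟩)
      refine (hc i.2).2 ⟨h, hcont, he, fun x hx hx0 => ?_⟩
      have : x ∈ ({x | h x = 0} ∩ (i : Set X)) := ⟨hx0, hx⟩
      rw [hi] at this
      exact this) univ ⟨isClosed_univ, h⟩
  refine ⟨K, hK.prop.1, hK.prop.2, fun K' hK' hsub hne => ?_⟩
  by_contra hcon
  exact hne (subset_antisymm hsub (hK.le_of_le ⟨hK', hcon⟩ hsub))

/-- The gluing lemma. -/
theorem glue [NormalSpace X] {A K : Set X} {g h0 h1 : X → E}
    (c0 : Continuous h0) (c1 : Continuous h1) (e0 : EqOn h0 g A) (e1 : EqOn h1 g A)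
    {T0 T1 : Set X} (hT0 : IsClosed T0) (hT1 : IsClosed T1) (hd : Disjoint T0 T1)
    (n0 : ∀ x ∈ K, x ∉ T0 → h0 x ≠ 0) (n1 : ∀ x ∈ K, x ∉ T1 → h1 x ≠ 0)
    (hs : ∀ x ∈ K, x ∉ T0 → x ∉ T1 → ∀ θ ∈ Icc (0 : ℝ) 1, (1 - θ) • h1 x + θ • h0 x ≠ 0) :
    GoodE A g K := by
  obtain ⟨f, hf0, hf1, hf⟩ := exists_continuous_zero_one_of_isClosed hT0 hT1 hd
  have cf := f.continuous
  refine ⟨fun x => (1 - f x) • h1 x + f x • h0 x, by fun_prop, fun x hx => ?_, fun x hx => ?_⟩
  · simp only [e0 hx, e1 hx]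
    rw [← add_smul]
    simp
  · by_cases x0 : x ∈ T0
    · have := hf0 x0
      simp only [Pi.zero_apply] at this
      simpa [this] using n1 x hx (Set.disjoint_left.mp hd x0)
    by_cases x1 : x ∈ T1
    · have := hf1 x1
      simp only [Pi.one_apply] at this
      simpa [this] using n0 x hx x0
    exact hs x hx x0 x1 _ (hf x)

theorem connected_of_minimal [NormalSpace X] {A K : Set X}
    {g : X → E} (hg : Continuous g) (hK : IsClosed K) (hbad : ¬ GoodE A g K)
    (hmin : ∀ K' : Set X, IsClosed K' → K' ⊆ K → K' ≠ K → GoodE A g K') : IsConnected K := by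
  refine ⟨?_, ?_⟩
  · rw [nonempty_iff_ne_empty]
    rintro rfl
    exact hbad ⟨g, hg, fun _ _ => rfl, fun x hx => hx.elim⟩
  · rw [isPreconnected_iff_subset_of_disjoint_closed]
    intro u v hu hv hcov hdisj
    by_contra hcon
    push Not at hcon
    obtain ⟨h1, c1, e1, n1⟩ := hmin (K ∩ u) (hK.inter hu) inter_subset_left
      (fun h => hcon.1 (h ▸ inter_subset_right))
    obtain ⟨h0, c0, e0, n0⟩ := hmin (K ∩ v) (hK.inter hv) inter_subset_left
      (fun h => hcon.2 (h ▸ inter_subset_right))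
    refine hbad (glue c0 c1 e0 e1 (hK.inter hu) (hK.inter hv) ?_ ?_ ?_ ?_)
    · rw [Set.disjoint_left]
      rintro x ⟨hx, hxu⟩ ⟨-, hxv⟩
      have : x ∈ K ∩ (u ∩ v) := ⟨hx, hxu, hxv⟩
      rw [hdisj] at this
      exact this
    · exact fun x hx hx0 => n0 x ⟨hx, (hcov hx).resolve_left fun h => hx0 ⟨hx, h⟩⟩
    · exact fun x hx hx1 => n1 x ⟨hx, (hcov hx).resolve_right fun h => hx1 ⟨hx, h⟩⟩
    · intro x hx x0 x1
      rcases hcov hx with h | h
      · exact absurd ⟨hx, h⟩ x0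
      · exact absurd ⟨hx, h⟩ x1

/-- A closed set that carries all the antipodal points of two extensions contains a continuum
that crosses from one hole to the other. -/
theorem cross [T2Space X] [CompactSpace X] {A K : Set X} {g h0 h1 : X → E}
    (hK : IsClosed K) (hbad : ¬ GoodE A g K) {V0 V1 W : Set X}
    (hd : Disjoint (K ∩ closure V0) (K ∩ closure V1))
    (c0 : Continuous h0) (c1 : Continuous h1) (e0 : EqOn h0 g A) (e1 : EqOn h1 g A)
    (n0 : ∀ x ∈ K \ V0, h0 x ≠ 0) (n1 : ∀ x ∈ K \ V1, h1 x ≠ 0) (hW : IsClosed W)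
    (hs : ∀ x ∈ (K \ V0) ∩ (K \ V1), ∀ θ ∈ Icc (0 : ℝ) 1,
      (1 - θ) • h1 x + θ • h0 x = 0 → x ∈ W) :
    ∃ C ⊆ W, IsCompact C ∧ IsConnected C ∧ (C ∩ (K ∩ closure V0)).Nonempty ∧
      (C ∩ (K ∩ closure V1)).Nonempty := by
  have hS0c : IsClosed (K ∩ closure V0) := hK.inter isClosed_closure
  have hS1c : IsClosed (K ∩ closure V1) := hK.inter isClosed_closure
  by_contra hno
  obtain ⟨W0, W1, k0, k1, hcov, hd', d0, d1⟩ := cutwire hW.isCompact hS0c hS1c
    (fun C a b c d e => hno ⟨C, a, b, c, d, e⟩)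
  refine hbad (glue c0 c1 e0 e1 (hS0c.union k0) (hS1c.union k1) ?_ ?_ ?_ ?_)
  · simp only [disjoint_union_left, disjoint_union_right]
    exact ⟨⟨hd, d0⟩, d1.symm, hd'⟩
  · exact fun x hx hx0 => n0 x ⟨hx, fun h => hx0 (Or.inl ⟨hx, subset_closure h⟩)⟩
  · exact fun x hx hx1 => n1 x ⟨hx, fun h => hx1 (Or.inl ⟨hx, subset_closure h⟩)⟩
  · intro x hx hx0 hx1 θ hθ hz
    have : x ∈ W := hs x ⟨⟨hx, fun h => hx0 (Or.inl ⟨hx, subset_closure h⟩)⟩,
      ⟨hx, fun h => hx1 (Or.inl ⟨hx, subset_closure h⟩)⟩⟩ θ hθ hz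
    rcases hcov this with h | h
    · exact hx0 (Or.inr h)
    · exact hx1 (Or.inr h)

/-- Margins on compact sets. -/
theorem margin {Y : Type*} [MetricSpace Y] {C : Set X} (hC : IsCompact C) {φ : X → Y}
    (hφ : Continuous φ) {G : Set Y} (hG : IsOpen G) (h : ∀ x ∈ C, φ x ∈ G) :
    ∃ ε : ℝ, 0 < ε ∧ ∀ x ∈ C, ∀ y, dist y (φ x) ≤ ε → y ∈ G := by
  obtain ⟨δ, hδ, hs⟩ := (hC.image hφ).exists_cthickening_subset_open hG
    (by rintro _ ⟨x, hx, rfl⟩; exact h x hx)
  exact ⟨δ, hδ, fun x hx y hy => hs (Metric.mem_cthickening_of_dist_le y (φ x) δ _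
    (mem_image_of_mem φ hx) hy)⟩

end Pool.Agent.P.MP_892330_gt.All
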